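import Mathlib

/-!
# The blocks of digits of the multiples of `∑ b ^ (-i!)`
-/

set_option autoImplicit false

open Finset Nat

namespace Pool.Agent.T9h51.MH

/-- the blocks of `N L`, `L` the Liouville number to the base `b` -/
theorem sparse_block {b k N : ℕ} (hb : 2 ≤ b) (hk : 1 ≤ k) (h : ∀ e, N / b ^ e % b ^ k ≠ b ^ k - 1) :
    {j : ℕ | ⌊(N : ℝ) * liouvilleNumber b * (b : ℝ) ^ (j + k)⌋ % ((b ^ k : ℕ) : ℤ) = ((b ^ k - 1 : ℕ) : ℤ)}.Finite := by
  have hb0 : (2 : ℝ) ≤ b := by exact_mod_cast hb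
  have hb1 : (1 : ℝ) < b := by linarith
  have hbp : (0 : ℝ) < b := by linarith
  -- a bound for `N`
  obtain ⟨B, hB⟩ : ∃ B : ℕ, N < b ^ B := ⟨N, Nat.lt_pow_self (by omega)⟩
  have hB4 : 2 * N < b ^ (B + 1) := by
    rw [pow_succ]
    nlinarith
  refine (Set.finite_lt_nat ((k + B + 4)!)).subset fun j hj => ?_
  by_contra hcon
  simp only [Set.mem_ofPred_eq, not_lt] at hj hcon
  obtain ⟨J, hJ⟩ : ∃ J, J = j + k := ⟨_, rfl⟩
  rw [← hJ] at hj
  have hJ1 : (k + B + 4)! ≤ J := by omega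
  -- the factorials around `J`
  obtain ⟨n, hn3, hn1, hn2⟩ : ∃ n, k + B + 4 ≤ n ∧ n ! ≤ J ∧ J < (n + 1)! := by
    have hex : ∃ n, J < (n + 1)! := ⟨J, lt_of_lt_of_le (Nat.lt_succ_self J) (Nat.self_le_factorial _)⟩
    classical
    have h1 := Nat.find_spec hex
    refine ⟨Nat.find hex, ?_, ?_, h1⟩
    · by_contra h2
      have h3 : Nat.find hex + 1 ≤ k + B + 4 := by omega
      have h4 := Nat.factorial_le h3
      omega
    · rcases Nat.eq_zero_or_pos (Nat.find hex) with h2 | h2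
      · rw [h2]
        simp
        omega
      · have h3 := Nat.find_min hex (m := Nat.find hex - 1) (by omega)
        have h4 : Nat.find hex - 1 + 1 = Nat.find hex := by omega
        rw [h4] at h3
        omega
  obtain ⟨e, he⟩ : ∃ e, (n + 1)! = J + e := ⟨(n + 1)! - J, by omega⟩
  have he1 : 1 ≤ e := by omega
  obtain ⟨g, hg⟩ : ∃ g, (n + 2)! = J + e + g := ⟨(n + 2)! - (n + 1)!, by
    have := Nat.factorial_le (show n + 1 ≤ n + 2 by omega)
    omega⟩
  have hfn : n ≤ (n)! := Nat.self_le_factorial n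
  have hfn1 : (n + 1)! = n * (n)! + (n)! := by rw [Nat.factorial_succ]; ring
  have hg5 : B + 1 ≤ g := by
    have h1 : (n + 2)! = (n + 2) * (n + 1)! := Nat.factorial_succ (n + 1)
    rw [h1] at hg
    have h3 : (n + 2) * (n + 1)! = (n + 1) * (n + 1)! + (n + 1)! := by ring
    have h4 : 1 ≤ (n + 1)! := Nat.factorial_pos _
    nlinarith
  -- the two parts
  have hL := LiouvilleNumber.partialSum_add_remainder (m := (b : ℝ)) hb1 n
  have hA : (N : ℝ) * LiouvilleNumber.partialSum b n * (b : ℝ) ^ J =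
      ((∑ i ∈ range (n + 1), N * b ^ (J - i !) : ℕ) : ℝ) := by
    rw [LiouvilleNumber.partialSum, Finset.mul_sum, Finset.sum_mul]
    push_cast
    refine Finset.sum_congr rfl fun i hi => ?_
    have h1 : i ! ≤ J := (Nat.factorial_le (by have := mem_range.1 hi; omega)).trans hn1
    have h2 : (b : ℝ) ^ J = (b : ℝ) ^ (J - i !) * (b : ℝ) ^ (i !) := by rw [← pow_add, Nat.sub_add_cancel h1]
    rw [h2]
    field_simp
  have hR1 : LiouvilleNumber.remainder (b : ℝ) n =
      1 / (b : ℝ) ^ ((n + 1)!) + LiouvilleNumber.remainder (b : ℝ) (n + 1) := by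
    have h1 := LiouvilleNumber.partialSum_add_remainder (m := (b : ℝ)) hb1 (n + 1)
    rw [LiouvilleNumber.partialSum_succ] at h1
    linarith
  have hR2 : LiouvilleNumber.remainder (b : ℝ) (n + 1) < 2 * (1 / (b : ℝ) ^ ((n + 2)!)) := by
    have h1 := LiouvilleNumber.remainder_lt' (n + 1) (m := (b : ℝ)) hb1
    have h2 : ((1 : ℝ) - 1 / b)⁻¹ ≤ 2 := by
      rw [inv_le_comm₀ (by
        rw [sub_pos, div_lt_one hbp]
        exact hb1) (by norm_num)]
      have : 1 / (b : ℝ) ≤ 1 / 2 := one_div_le_one_div_of_le (by norm_num) hb0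
      norm_num at this ⊢
      linarith
    refine lt_of_lt_of_le h1 ?_
    exact mul_le_mul_of_nonneg_right h2 (by positivity)
  have hR3 : 0 < LiouvilleNumber.remainder (b : ℝ) (n + 1) := LiouvilleNumber.remainder_pos hb1 _
  have hfl : ⌊(N : ℝ) * LiouvilleNumber.remainder (b : ℝ) n * (b : ℝ) ^ J⌋ = ((N / b ^ e : ℕ) : ℤ) := by
    have h10k : (0 : ℝ) < (b : ℝ) ^ J := by positivity
    have h10e : (0 : ℝ) < (b : ℝ) ^ e := by positivity
    have e1 : (N : ℝ) * LiouvilleNumber.remainder (b : ℝ) n * (b : ℝ) ^ J =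
        N / (b : ℝ) ^ e + N * (LiouvilleNumber.remainder (b : ℝ) (n + 1) * (b : ℝ) ^ J) := by
      rw [hR1, he, pow_add]
      field_simp
    have e2 : LiouvilleNumber.remainder (b : ℝ) (n + 1) * (b : ℝ) ^ J < 2 * (1 / ((b : ℝ) ^ e * (b : ℝ) ^ g)) := by
      have h1 := mul_lt_mul_of_pos_right hR2 h10k
      refine lt_of_lt_of_eq h1 ?_
      rw [hg, pow_add, pow_add]
      field_simp
    have e3 : (N : ℝ) * (LiouvilleNumber.remainder (b : ℝ) (n + 1) * (b : ℝ) ^ J) < 1 / (b : ℝ) ^ e := by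
      rcases Nat.eq_zero_or_pos N with h0 | h0
      · rw [h0]
        simp
        omega
      · have hN0 : (0 : ℝ) < N := by exact_mod_cast h0
        have h1 := mul_lt_mul_of_pos_left e2 hN0
        have h2 : 2 * (N : ℝ) ≤ (b : ℝ) ^ (B + 1) := by
          have : ((2 * N : ℕ) : ℝ) ≤ ((b ^ (B + 1) : ℕ) : ℝ) := by exact_mod_cast hB4.le
          push_cast at this
          exact this
        have h3 : (b : ℝ) ^ (B + 1) ≤ (b : ℝ) ^ g := pow_le_pow_right₀ (by linarith) hg5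
        refine lt_of_lt_of_le h1 ?_
        have h4 : (N : ℝ) * (2 * (1 / ((b : ℝ) ^ e * (b : ℝ) ^ g))) = (2 * N / (b : ℝ) ^ g) * (1 / (b : ℝ) ^ e) := by
          field_simp
        rw [h4]
        have h5 : 2 * (N : ℝ) / (b : ℝ) ^ g ≤ 1 := by
          rw [div_le_one (by positivity)]
          linarith
        have h6 : (0 : ℝ) ≤ 1 / (b : ℝ) ^ e := by positivity
        nlinarith
    have e4 : 0 ≤ (N : ℝ) * (LiouvilleNumber.remainder (b : ℝ) (n + 1) * (b : ℝ) ^ J) := by positivity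
    have e5 : ((N / b ^ e : ℕ) : ℝ) ≤ N / (b : ℝ) ^ e := by
      have := Nat.cast_div_le (m := N) (n := b ^ e) (α := ℝ)
      push_cast at this
      exact this
    have e6 : (N : ℝ) / (b : ℝ) ^ e + 1 / (b : ℝ) ^ e ≤ (N / b ^ e : ℕ) + 1 := by
      rw [← add_div, div_le_iff₀ h10e]
      have h1 : N < (N / b ^ e + 1) * b ^ e := Nat.lt_mul_of_div_lt (Nat.lt_succ_self _) (by positivity)
      have h2 : N + 1 ≤ (N / b ^ e + 1) * b ^ e := h1
      exact_mod_cast h2
    obtain ⟨t, ht⟩ : ∃ t, t = N / b ^ e := ⟨_, rfl⟩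
    rw [← ht] at e5 e6 ⊢
    rw [e1, Int.floor_eq_iff]
    push_cast
    constructor <;> linarith
  have hsplit : (N : ℝ) * liouvilleNumber b * (b : ℝ) ^ J =
      (N : ℝ) * LiouvilleNumber.remainder (b : ℝ) n * (b : ℝ) ^ J +
        (((∑ i ∈ range (n + 1), N * b ^ (J - i !) : ℕ) : ℤ) : ℝ) := by
    rw [← hL, mul_add, add_mul, hA]
    push_cast
    ring
  rw [hsplit, Int.floor_add_intCast, hfl, Finset.sum_range_succ] at hj
  have hdvd : b ^ k ∣ ∑ i ∈ range n, N * b ^ (J - i !) := by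
    refine Finset.dvd_sum fun i hi => Dvd.dvd.mul_left (pow_dvd_pow b ?_) _
    have hi' := mem_range.1 hi
    have h1 : i ! ≤ (n - 1)! := Nat.factorial_le (by omega)
    have h2 : (n)! = (n - 1)! + (n - 1) * (n - 1)! := by
      obtain ⟨c, hc⟩ : ∃ c, n = c + 1 := ⟨n - 1, by omega⟩
      rw [hc, Nat.factorial_succ]
      simp
      ring
    have h3 : n - 1 ≤ (n - 1) * (n - 1)! := Nat.le_mul_of_pos_right _ (Nat.factorial_pos _)
    omega
  obtain ⟨q, hq⟩ := hdvd
  rw [hq] at hj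
  have hbk : 2 ≤ b ^ k := by
    calc 2 ≤ b := hb
      _ = b ^ 1 := (pow_one b).symm
      _ ≤ b ^ k := Nat.pow_le_pow_right (by omega) hk
  have hbkpos : 0 < b ^ k := by positivity
  -- reduce to naturals
  have hj' : (N / b ^ e + (b ^ k * q + N * b ^ (J - n !))) % b ^ k = b ^ k - 1 := by
    exact_mod_cast hj
  rcases Nat.lt_or_ge (J - n !) k with h1 | h1
  · have hz : N / b ^ e = 0 := by
      apply Nat.div_eq_of_lt
      refine lt_of_lt_of_le hB (Nat.pow_le_pow_right (by omega) ?_)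
      have h5 : n ≤ n * (n)! := Nat.le_mul_of_pos_right _ (Nat.factorial_pos _)
      omega
    rw [hz, zero_add, Nat.mul_add_mod] at hj'
    rcases Nat.eq_zero_or_pos (J - n !) with h2 | h2
    · rw [h2, pow_zero, mul_one] at hj'
      have := h 0
      rw [pow_zero, Nat.div_one] at this
      exact this hj'
    · -- divisible by `b`
      have h3 : b ∣ N * b ^ (J - n !) := Dvd.dvd.mul_left (dvd_pow_self b (by omega)) _
      have h4 : b ∣ b ^ k := dvd_pow_self b (by omega)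
      have h5 : b ∣ N * b ^ (J - n !) % b ^ k := (Nat.dvd_mod_iff h4).2 h3
      rw [hj'] at h5
      have h6 : b ∣ b ^ k - (b ^ k - 1) := Nat.dvd_sub h4 h5
      have h7 : b ^ k - (b ^ k - 1) = 1 := by omega
      rw [h7] at h6
      have := Nat.le_of_dvd (by norm_num) h6
      omega
  · have h2 : b ^ k ∣ N * b ^ (J - n !) := Dvd.dvd.mul_left (pow_dvd_pow b h1) _
    obtain ⟨r, hr⟩ := h2
    rw [hr, ← mul_add, Nat.add_mul_mod_self_left] at hj'
    exact h e hj'

/-- the arithmetic of the lower bound -/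
theorem blocks_avoid {b k n g c m : ℕ} (hb : 2 ≤ b) (hk : 1 ≤ k) (hg : g < b) (hc : c * g = b ^ n)
    (hm : m < g * (b ^ k - 1)) (e : ℕ) : m * c / b ^ e % b ^ k ≠ b ^ k - 1 := by
  intro h
  have hbk : b ≤ b ^ k := by
    calc b = b ^ 1 := (pow_one b).symm
      _ ≤ b ^ k := Nat.pow_le_pow_right (by omega) hk
  have hg0 : 0 < g := by
    rcases Nat.eq_zero_or_pos g with h0 | h0
    · rw [h0] at hm
      omega
    · exact h0
  obtain ⟨t, ht⟩ : ∃ t, m * c / b ^ e + 1 = (t + 1) * b ^ k := by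
    have h1 := Nat.div_add_mod (m * c / b ^ e) (b ^ k)
    rw [h] at h1
    refine ⟨m * c / b ^ e / b ^ k, ?_⟩
    have h2 : (m * c / b ^ e / b ^ k + 1) * b ^ k = b ^ k * (m * c / b ^ e / b ^ k) + b ^ k := by ring
    omega
  have hbe : 0 < b ^ e := by positivity
  -- `m c < (t + 1) b ^ k b ^ e`
  have h1 : m * c < (t + 1) * b ^ k * b ^ e := by
    rw [← ht]
    exact Nat.lt_mul_of_div_lt (Nat.lt_succ_self _) hbe
  have h2 : (t + 1) * b ^ k * b ^ e ≤ m * c + b ^ e := by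
    have h3 : m * c / b ^ e * b ^ e ≤ m * c := Nat.div_mul_le_self _ _
    rw [← ht, add_mul, one_mul]
    omega
  -- multiply by `g`
  have h3 : m * b ^ n < (t + 1) * g * (b ^ k * b ^ e) := by
    have h4 : m * c * g < (t + 1) * b ^ k * b ^ e * g := Nat.mul_lt_mul_of_pos_right h1 hg0
    have h5 : m * c * g = m * b ^ n := by rw [mul_assoc, hc]
    have h6 : (t + 1) * b ^ k * b ^ e * g = (t + 1) * g * (b ^ k * b ^ e) := by ring
    rwa [h5, h6] at h4
  have h4 : (t + 1) * g * (b ^ k * b ^ e) ≤ m * b ^ n + g * b ^ e := by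
    have h5 : (t + 1) * b ^ k * b ^ e * g ≤ (m * c + b ^ e) * g := Nat.mul_le_mul_right _ h2
    have h6 : (m * c + b ^ e) * g = m * b ^ n + g * b ^ e := by rw [add_mul, mul_assoc, hc]; ring
    have h7 : (t + 1) * b ^ k * b ^ e * g = (t + 1) * g * (b ^ k * b ^ e) := by ring
    rwa [h6, h7] at h5
  have hdiv : ∀ D : ℕ, D ∣ b ^ k * b ^ e → D ∣ b ^ n → D ≤ g * b ^ e := by
    intro D h5 h6
    have h7 : D ∣ (t + 1) * g * (b ^ k * b ^ e) - m * b ^ n :=
      Nat.dvd_sub (Dvd.dvd.mul_left h5 _) (Dvd.dvd.mul_left h6 _)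
    have h8 := Nat.le_of_dvd (by omega) h7
    omega
  have hgb : g * b ^ e < b * b ^ e := Nat.mul_lt_mul_of_pos_right hg hbe
  rcases Nat.lt_or_ge e n with h5 | h5
  · rcases Nat.lt_or_ge n (e + k) with h6 | h6
    · have h7 := hdiv (b ^ n) (by rw [← pow_add]; exact pow_dvd_pow b (by omega)) dvd_rfl
      have h8 : b * b ^ e ≤ b ^ n := by
        rw [← pow_succ']
        exact Nat.pow_le_pow_right (by omega) h5
      omega
    · have h7 := hdiv (b ^ k * b ^ e) dvd_rfl (by rw [← pow_add]; exact pow_dvd_pow b (by omega))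
      have h8 : b * b ^ e ≤ b ^ k * b ^ e := Nat.mul_le_mul_right _ hbk
      omega
  · have h6 : b ^ e = b ^ (e - n) * b ^ n := by rw [← pow_add]; congr 1; omega
    have h7 : 1 ≤ b ^ (e - n) := Nat.one_le_pow _ _ (by omega)
    have hbn : 0 < b ^ n := by positivity
    obtain ⟨P, hP⟩ : ∃ P, b ^ k = P + 1 := ⟨b ^ k - 1, by omega⟩
    rw [hP] at h4 hm
    rw [Nat.add_sub_cancel] at hm
    rw [h6] at h4
    have h8 : (t + 1) * g * ((P + 1) * (b ^ (e - n) * b ^ n)) =
        (t * g * (P + 1) * b ^ (e - n) + g * P * b ^ (e - n)) * b ^ n + g * (b ^ (e - n) * b ^ n) := by ring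
    rw [h8] at h4
    have h9 : (t * g * (P + 1) * b ^ (e - n) + g * P * b ^ (e - n)) * b ^ n ≤ m * b ^ n := by omega
    have h10 := Nat.le_of_mul_le_mul_right h9 hbn
    have h11 : g * P ≤ g * P * b ^ (e - n) := Nat.le_mul_of_pos_right _ h7
    omega

end Pool.Agent.T9h51.MH
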