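import Mathlib

/-!
# The digits of the multiples of `∑ 10 ^ (-i!)`, and of `-α`
-/

set_option autoImplicit false

open Finset Nat

namespace Pool.Agent.T9h51.MH

/-- the digits of `-y` -/
theorem digit_neg (y : ℝ) (hy : Irrational y) : ⌊-y⌋ % 10 = 9 - ⌊y⌋ % 10 := by
  have h1 : ⌊-y⌋ = -⌊y⌋ - 1 := by
    rw [Int.floor_eq_iff]
    push_cast
    have h2 := Int.floor_le y
    have h3 := Int.lt_floor_add_one y
    have h4 : (⌊y⌋ : ℝ) ≠ y := fun h => hy ⟨⌊y⌋, by push_cast; exact h⟩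
    have h5 : (⌊y⌋ : ℝ) < y := lt_of_le_of_ne h2 h4
    constructor <;> linarith
  rw [h1]
  omega

theorem sparse {N d : ℕ} (hN : N < 10 ^ 4) (hd : d ≠ 0) (h : ∀ e < 4, N / 10 ^ e % 10 ≠ d) :
    {j : ℕ | ⌊(N : ℝ) * liouvilleNumber 10 * (10 : ℝ) ^ (j + 1)⌋ % 10 = d}.Finite := by
  refine (Set.finite_lt_nat 6).subset fun j hj => ?_
  by_contra hcon
  simp only [Set.mem_ofPred_eq, not_lt] at hj hcon
  obtain ⟨k, hk⟩ : ∃ k, k = j + 1 := ⟨_, rfl⟩
  rw [← hk] at hj
  -- the factorials around `k`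
  obtain ⟨n, hn3, hn1, hn2⟩ : ∃ n, 3 ≤ n ∧ n ! ≤ k ∧ k < (n + 1)! := by
    have hex : ∃ n, k < (n + 1)! := ⟨k, lt_of_lt_of_le (Nat.lt_succ_self k) (Nat.self_le_factorial _)⟩
    classical
    have h1 := Nat.find_spec hex
    refine ⟨Nat.find hex, ?_, ?_, h1⟩
    · by_contra h2
      have h3 : Nat.find hex + 1 ≤ 3 := by omega
      have h4 := Nat.factorial_le h3
      have h5 : (3 : ℕ)! = 6 := rfl
      omega
    · rcases Nat.eq_zero_or_pos (Nat.find hex) with h2 | h2
      · rw [h2]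
        simp
        omega
      · have h3 := Nat.find_min hex (m := Nat.find hex - 1) (by omega)
        have h4 : Nat.find hex - 1 + 1 = Nat.find hex := by omega
        rw [h4] at h3
        omega
  obtain ⟨e, he⟩ : ∃ e, (n + 1)! = k + e := ⟨(n + 1)! - k, by omega⟩
  have he1 : 1 ≤ e := by omega
  obtain ⟨g, hg⟩ : ∃ g, (n + 2)! = k + e + g := ⟨(n + 2)! - (n + 1)!, by
    have := Nat.factorial_le (show n + 1 ≤ n + 2 by omega)
    omega⟩
  have hg5 : 5 ≤ g := by
    have h1 : (n + 2)! = (n + 2) * (n + 1)! := Nat.factorial_succ (n + 1)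
    have h2 : 24 ≤ (n + 1)! := by
      have := Nat.factorial_le (show 4 ≤ n + 1 by omega)
      have h5 : (4 : ℕ)! = 24 := rfl
      omega
    rw [h1] at hg
    have h3 : (n + 2) * (n + 1)! = (n + 1) * (n + 1)! + (n + 1)! := by ring
    nlinarith
  -- the two parts
  have hL := LiouvilleNumber.partialSum_add_remainder (m := (10 : ℝ)) (by norm_num) n
  have hA : (N : ℝ) * LiouvilleNumber.partialSum 10 n * (10 : ℝ) ^ k =
      ((∑ i ∈ range (n + 1), N * 10 ^ (k - i !) : ℕ) : ℝ) := by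
    rw [LiouvilleNumber.partialSum, Finset.mul_sum, Finset.sum_mul]
    push_cast
    refine Finset.sum_congr rfl fun i hi => ?_
    have h1 : i ! ≤ k := (Nat.factorial_le (by have := mem_range.1 hi; omega)).trans hn1
    have h2 : (10 : ℝ) ^ k = 10 ^ (k - i !) * 10 ^ (i !) := by rw [← pow_add, Nat.sub_add_cancel h1]
    rw [h2]
    field_simp
  have hR1 : LiouvilleNumber.remainder 10 n =
      1 / (10 : ℝ) ^ ((n + 1)!) + LiouvilleNumber.remainder 10 (n + 1) := by
    have h1 := LiouvilleNumber.partialSum_add_remainder (m := (10 : ℝ)) (by norm_num) (n + 1)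
    rw [LiouvilleNumber.partialSum_succ] at h1
    linarith
  have hR2 : LiouvilleNumber.remainder (10 : ℝ) (n + 1) < (10 / 9) * (1 / (10 : ℝ) ^ ((n + 2)!)) := by
    have h1 := LiouvilleNumber.remainder_lt' (n + 1) (m := (10 : ℝ)) (by norm_num)
    have h2 : ((1 : ℝ) - 1 / 10)⁻¹ = 10 / 9 := by norm_num
    rw [h2] at h1
    exact h1
  have hR3 : 0 < LiouvilleNumber.remainder (10 : ℝ) (n + 1) := LiouvilleNumber.remainder_pos (by norm_num) _
  have hfl : ⌊(N : ℝ) * LiouvilleNumber.remainder 10 n * (10 : ℝ) ^ k⌋ = ((N / 10 ^ e : ℕ) : ℤ) := by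
    have h10k : (0 : ℝ) < 10 ^ k := by positivity
    have h10e : (0 : ℝ) < 10 ^ e := by positivity
    have e1 : (N : ℝ) * LiouvilleNumber.remainder 10 n * (10 : ℝ) ^ k =
        N / 10 ^ e + N * (LiouvilleNumber.remainder 10 (n + 1) * 10 ^ k) := by
      rw [hR1, he, pow_add]
      field_simp
    have e2 : LiouvilleNumber.remainder (10 : ℝ) (n + 1) * 10 ^ k < (10 / 9) * (1 / (10 ^ e * 10 ^ g)) := by
      have h1 := mul_lt_mul_of_pos_right hR2 h10k
      refine lt_of_lt_of_eq h1 ?_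
      rw [hg, pow_add, pow_add]
      field_simp
    have e3 : (N : ℝ) * (LiouvilleNumber.remainder 10 (n + 1) * 10 ^ k) < 1 / 10 ^ e := by
      rcases Nat.eq_zero_or_pos N with h0 | h0
      · rw [h0]
        simp
      · have hN0 : (0 : ℝ) < N := by exact_mod_cast h0
        have h1 := mul_lt_mul_of_pos_left e2 hN0
        have h2 : (N : ℝ) ≤ 10 ^ 4 - 1 := by
          have : (N : ℝ) + 1 ≤ 10 ^ 4 := by exact_mod_cast hN
          linarith
        have h3 : (10 : ℝ) ^ 5 ≤ 10 ^ g := pow_le_pow_right₀ (by norm_num) hg5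
        refine lt_of_lt_of_le h1 ?_
        have h4 : (N : ℝ) * ((10 / 9) * (1 / (10 ^ e * 10 ^ g))) = (N * (10 / 9) / 10 ^ g) * (1 / 10 ^ e) := by
          field_simp
        rw [h4]
        have h5 : (N : ℝ) * (10 / 9) / 10 ^ g ≤ 1 := by
          rw [div_le_one (by positivity)]
          linarith
        have h6 : (0 : ℝ) ≤ 1 / 10 ^ e := by positivity
        nlinarith
    have e4 : 0 ≤ (N : ℝ) * (LiouvilleNumber.remainder 10 (n + 1) * 10 ^ k) := by positivity
    have e5 : ((N / 10 ^ e : ℕ) : ℝ) ≤ N / 10 ^ e := by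
      have := Nat.cast_div_le (m := N) (n := 10 ^ e) (α := ℝ)
      push_cast at this
      exact this
    have e6 : (N : ℝ) / 10 ^ e + 1 / 10 ^ e ≤ (N / 10 ^ e : ℕ) + 1 := by
      rw [← add_div, div_le_iff₀ h10e]
      have h1 : N < (N / 10 ^ e + 1) * 10 ^ e := Nat.lt_mul_of_div_lt (Nat.lt_succ_self _) (by positivity)
      have h2 : N + 1 ≤ (N / 10 ^ e + 1) * 10 ^ e := h1
      exact_mod_cast h2
    obtain ⟨t, ht⟩ : ∃ t, t = N / 10 ^ e := ⟨_, rfl⟩
    rw [← ht] at e5 e6 ⊢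
    rw [e1, Int.floor_eq_iff]
    push_cast
    constructor <;> linarith
  have hsplit : (N : ℝ) * liouvilleNumber 10 * (10 : ℝ) ^ k =
      (N : ℝ) * LiouvilleNumber.remainder 10 n * (10 : ℝ) ^ k +
        (((∑ i ∈ range (n + 1), N * 10 ^ (k - i !) : ℕ) : ℤ) : ℝ) := by
    rw [← hL, mul_add, add_mul, hA]
    push_cast
    ring
  rw [hsplit, Int.floor_add_intCast, hfl, Finset.sum_range_succ] at hj
  have hdvd : 10 ∣ ∑ i ∈ range n, N * 10 ^ (k - i !) := by
    refine Finset.dvd_sum fun i hi => Dvd.dvd.mul_left (dvd_pow_self 10 ?_) _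
    have hi' := mem_range.1 hi
    have h1 : i ! ≤ (n - 1)! := Nat.factorial_le (by omega)
    have h2 : (n - 1)! < n ! := (Nat.factorial_lt (by omega)).2 (by omega)
    omega
  obtain ⟨q, hq⟩ := hdvd
  rw [hq] at hj
  rcases Nat.eq_or_lt_of_le hn1 with h1 | h1
  · have hz : N / 10 ^ e = 0 := by
      apply Nat.div_eq_of_lt
      refine lt_of_lt_of_le hN (Nat.pow_le_pow_right (by norm_num) ?_)
      have h2 : (n + 1)! = (n + 1) * (n)! := Nat.factorial_succ n
      have h3 : 6 ≤ (n)! := by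
        have := Nat.factorial_le hn3
        have h5 : (3 : ℕ)! = 6 := rfl
        omega
      have h4 : (n + 1) * (n)! = n * (n)! + (n)! := by ring
      have h5 : 3 * 6 ≤ n * (n)! := Nat.mul_le_mul hn3 h3
      omega
    rw [hz, h1, Nat.sub_self, pow_zero, mul_one] at hj
    have h2 := h 0 (by norm_num)
    rw [pow_zero, Nat.div_one] at h2
    push_cast at hj
    omega
  · have h2 : ∃ r, N * 10 ^ (k - (n)!) = 10 * r := by
      refine ⟨N * 10 ^ (k - (n)! - 1), ?_⟩
      have h3 : k - (n)! = k - (n)! - 1 + 1 := by omega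
      conv_lhs => rw [h3, pow_succ]
      ring
    obtain ⟨r, hr⟩ := h2
    rw [hr] at hj
    rcases lt_or_ge e 4 with h3 | h3
    · have h4 := h e h3
      generalize N / 10 ^ e = t at hj h4
      push_cast at hj
      omega
    · have hz : N / 10 ^ e = 0 := Nat.div_eq_of_lt (lt_of_lt_of_le hN (Nat.pow_le_pow_right (by norm_num) h3))
      rw [hz] at hj
      push_cast at hj
      omega

end Pool.Agent.T9h51.MH
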