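import Mathlib

/-!
# Blocks of digits in `y + m α`

For an irrational `x` there is `s` such that for every interval of length `1 / N`, `N = b ^ k`, some `m b ^ s x` with
`1 ≤ m < b N` lies in this interval modulo one.
-/

set_option autoImplicit false

namespace Pool.Agent.T9h51.MH

/-- all residue classes modulo `q` are attained by `m a`, `1 ≤ m ≤ q` -/
theorem grid {a : ℤ} {q : ℕ} (hq : 0 < q) (hc : IsCoprime a (q : ℤ)) (r : ℤ) :
    ∃ m : ℕ, 1 ≤ m ∧ m ≤ q ∧ ∃ n : ℤ, (m : ℤ) * a = r + n * q := by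
  obtain ⟨u, v, huv⟩ := hc
  have hq' : (0 : ℤ) < q := by exact_mod_cast hq
  set t : ℤ := (r * u - 1) % q + 1 with ht
  have h0 : 0 ≤ (r * u - 1) % (q : ℤ) := Int.emod_nonneg _ hq'.ne'
  have h1 : (r * u - 1) % (q : ℤ) < q := Int.emod_lt_of_pos _ hq'
  refine ⟨t.toNat, by omega, by omega, ?_⟩
  have h2 : ((t.toNat : ℕ) : ℤ) = t := Int.toNat_of_nonneg (by omega)
  rw [h2]
  have h3 := Int.emod_add_mul_ediv (r * u - 1) q
  refine ⟨-((r * u - 1) / q) * a - r * v, ?_⟩
  have h4 : t = r * u - q * ((r * u - 1) / q) := by rw [ht]; linarith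
  rw [h4]
  linear_combination r * huv

/-- the case of small denominators, positive error -/
theorem hit_small {b N : ℕ} (hb : 3 ≤ b) (hN : 1 ≤ N) {x θ : ℝ} {a : ℤ} {q : ℕ} (hq : 0 < q) (hc : IsCoprime a (q : ℤ))
    (hx : x = a / q + θ) (h1 : 1 / ((b : ℝ) * N) ≤ q * θ) (h2 : q * θ < 1 / N) (h3 : q * (b - 1) < b * N) (A : ℝ) :
    ∃ m : ℕ, 1 ≤ m ∧ m < b * N ∧ ∃ n : ℤ, A < m * x - n ∧ m * x - n < A + 1 / N := by
  have hq0 : (0 : ℝ) < q := by exact_mod_cast hq
  have hN0 : (0 : ℝ) < N := by exact_mod_cast hN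
  have hb0 : (3 : ℝ) ≤ b := by exact_mod_cast hb
  have hθ : 0 < θ := by
    have h4 : 0 < 1 / ((b : ℝ) * N) := by positivity
    by_contra hcon
    push Not at hcon
    nlinarith
  have hq3 : (q : ℝ) * (b - 1) < b * N := by
    have h4 : ((q * (b - 1) : ℕ) : ℝ) < ((b * N : ℕ) : ℝ) := by exact_mod_cast h3
    rw [Nat.cast_mul, Nat.cast_sub (by omega)] at h4
    push_cast at h4
    exact h4
  -- positions
  have hpos : ∀ (r : ℤ) (m : ℕ) (n : ℤ), (m : ℤ) * a = r + n * q → (m : ℝ) * x - n = r / q + m * θ := by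
    intro r m n h
    have h5 : (m : ℝ) * a = r + n * q := by exact_mod_cast h
    rw [hx]
    field_simp
    linear_combination h5
  set r : ℤ := ⌊(q : ℝ) * A⌋ with hr
  have hr1 : (r : ℝ) / q ≤ A := by
    rw [div_le_iff₀ hq0]
    have := Int.floor_le ((q : ℝ) * A)
    linarith
  have hr2 : A < ((r : ℝ) + 1) / q := by
    rw [lt_div_iff₀ hq0]
    have := Int.lt_floor_add_one ((q : ℝ) * A)
    linarith
  obtain ⟨m0, hm01, hm0q, n0, hn0⟩ := grid hq hc r
  have hex : ∃ l : ℕ, A - r / q < ((m0 + l * q : ℕ) : ℝ) * θ := by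
    obtain ⟨l, hl⟩ := exists_nat_gt ((A - r / q) / (q * θ))
    refine ⟨l, ?_⟩
    rw [div_lt_iff₀ (by positivity)] at hl
    push_cast
    have : (0 : ℝ) ≤ m0 * θ := by positivity
    nlinarith
  classical
  set l := Nat.find hex with hl
  have hl1 := Nat.find_spec hex
  rw [← hl] at hl1
  obtain ⟨m, hm⟩ : ∃ m, m = m0 + l * q := ⟨_, rfl⟩
  rw [← hm] at hl1
  have hml : (m : ℤ) * a = r + (n0 + l * a) * q := by
    rw [hm]
    push_cast
    linear_combination hn0
  have hpm := hpos r m _ hml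
  have hm1 : 1 ≤ m := by omega
  have hup : (m : ℝ) * θ ≤ A - r / q + q * θ ∧ (l ≠ 0 → ((m : ℝ) - q) * θ ≤ A - r / q) := by
    have hcase : l ≠ 0 → ((m : ℝ) - q) * θ ≤ A - r / q := by
      intro h0
      have h5 := Nat.find_min hex (m := l - 1) (by omega)
      push Not at h5
      have h6 : (((m0 + (l - 1) * q : ℕ)) : ℝ) = m - q := by
        rw [hm]
        have h7 : l = l - 1 + 1 := by omega
        have h8 : ((l : ℕ) : ℝ) = ((l - 1 : ℕ) : ℝ) + 1 := by exact_mod_cast h7
        push_cast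
        rw [h8]
        ring
      rw [h6] at h5
      exact h5
    refine ⟨?_, hcase⟩
    rcases Nat.eq_zero_or_pos l with h0 | h0
    · have h5 : m = m0 := by rw [hm, h0]; ring
      have h6 : (m : ℝ) ≤ q := by rw [h5]; exact_mod_cast hm0q
      have h7 : (m : ℝ) * θ ≤ q * θ := mul_le_mul_of_nonneg_right h6 hθ.le
      linarith
    · have h5 := hcase (by omega)
      linarith
  have hin : A < m * x - ((n0 + l * a : ℤ) : ℝ) ∧ m * x - ((n0 + l * a : ℤ) : ℝ) < A + 1 / N := by
    rw [hpm]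
    constructor <;> linarith [hup.1]
  have hqb : (q : ℝ) < b * N := by nlinarith
  -- the bound for `m`
  rcases Nat.eq_zero_or_pos l with h0 | h0
  · refine ⟨m, hm1, ?_, _, hin⟩
    have h5 : m = m0 := by rw [hm, h0]; ring
    have h6 : q < b * N := by exact_mod_cast hqb
    omega
  · have hle := hup.2 (by omega)
    have hη : 0 < (q : ℝ) * θ := by positivity
    -- from a bound `(M) (q θ) ≤ 1 - q / N` with `q ≤ N`
    have key : ∀ M : ℝ, M * (q * θ) ≤ 1 - q / N → (q : ℝ) ≤ N → M ≤ b * N - b * q := by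
      intro M hM hqN
      have h5 : 0 ≤ 1 - (q : ℝ) / N := by
        rw [sub_nonneg, div_le_one hN0]
        exact hqN
      by_contra hcon
      push Not at hcon
      have h6 : (b : ℝ) * N - b * q = (1 - q / N) * (b * N) := by field_simp
      rw [h6] at hcon
      have h7 : (1 - (q : ℝ) / N) * (b * N) * (1 / (b * N)) < M * (q * θ) := by
        have h8 : (1 - (q : ℝ) / N) * (b * N) * (1 / (b * N)) ≤ (1 - (q : ℝ) / N) * (b * N) * (q * θ) :=
          mul_le_mul_of_nonneg_left h1 (by positivity)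
        have h9 : (1 - (q : ℝ) / N) * (b * N) * (q * θ) < M * (q * θ) := mul_lt_mul_of_pos_right hcon hη
        linarith
      have h8 : (1 - (q : ℝ) / N) * (b * N) * (1 / (b * N)) = 1 - q / N := by field_simp
      rw [h8] at h7
      linarith
    rcases le_or_gt (A + 1 / N) (((r : ℝ) + 1) / q) with hcs | hcs
    · -- no grid point in the interval
      refine ⟨m, hm1, ?_, _, hin⟩
      have h5 : ((m : ℝ) - q) * (q * θ) ≤ 1 - q / N := by
        have h6 : A - r / q ≤ 1 / q - 1 / N := by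
          have h7 : ((r : ℝ) + 1) / q = r / q + 1 / q := by ring
          linarith
        have h8 : ((m : ℝ) - q) * θ * q ≤ (1 / q - 1 / N) * q := mul_le_mul_of_nonneg_right (hle.trans h6) hq0.le
        have h9 : (1 / (q : ℝ) - 1 / N) * q = 1 - q / N := by field_simp
        linarith
      have hqN : (q : ℝ) ≤ N := by
        have h6 : 1 / (N : ℝ) ≤ 1 / q := by
          have h7 : ((r : ℝ) + 1) / q = r / q + 1 / q := by ring
          linarith
        rwa [one_div_le_one_div hN0 hq0] at h6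
      have h10 := key _ h5 hqN
      have h11 : (m : ℝ) < b * N := by nlinarith
      exact_mod_cast h11
    · obtain ⟨m1, hm11, hm1q, n1, hn1⟩ := grid hq hc (r + 1)
      have hp1 := hpos (r + 1) m1 n1 hn1
      have hm1q' : (m1 : ℝ) ≤ q := by exact_mod_cast hm1q
      rcases lt_or_ge (((r : ℝ) + 1) / q + m1 * θ) (A + 1 / N) with hc2 | hc2
      · refine ⟨m1, hm11, ?_, n1, ?_, ?_⟩
        · have h6 : q < b * N := by exact_mod_cast hqb
          omega
        · rw [hp1]
          push_cast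
          have : (0 : ℝ) ≤ m1 * θ := by positivity
          linarith
        · rw [hp1]
          push_cast
          exact hc2
      · refine ⟨m, hm1, ?_, _, hin⟩
        have h5 : ((m : ℝ) - q - m1) * (q * θ) ≤ 1 - q / N := by
          have h6 : A - r / q ≤ m1 * θ + 1 / q - 1 / N := by
            have h7 : ((r : ℝ) + 1) / q = r / q + 1 / q := by ring
            linarith
          have h8 : (((m : ℝ) - q) * θ - m1 * θ) * q ≤ (1 / q - 1 / N) * q :=
            mul_le_mul_of_nonneg_right (by linarith) hq0.le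
          have h9 : (1 / (q : ℝ) - 1 / N) * q = 1 - q / N := by field_simp
          linarith
        rcases le_or_gt (q : ℝ) N with hqN | hqN
        · have h10 := key _ h5 hqN
          have h11 : (m : ℝ) < b * N := by nlinarith
          exact_mod_cast h11
        · -- `q > N`
          have h6 : (m : ℝ) - q - m1 < N - q := by
            by_contra hcon
            push Not at hcon
            have h7 : (q : ℝ) / N - 1 > 0 := by
              rw [gt_iff_lt, sub_pos, lt_div_iff₀ hN0]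
              linarith
            have h8 : (N - (q : ℝ)) * (q * θ) ≤ ((m : ℝ) - q - m1) * (q * θ) := mul_le_mul_of_nonneg_right hcon hη.le
            have h9 : (q - (N : ℝ)) * (q * θ) < (q - N) * (1 / N) := mul_lt_mul_of_pos_left h2 (by linarith)
            have h10 : ((q : ℝ) - N) * (1 / N) = q / N - 1 := by field_simp
            nlinarith
          have h11 : (m : ℝ) < q + N := by linarith
          have h12 : (q : ℝ) + N ≤ b * N := by
            by_contra hcon
            push Not at hcon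
            have h13 : ((b : ℝ) - 1) * N < q := by linarith
            have h14 : ((b : ℝ) - 1) * N * (b - 1) < q * (b - 1) := mul_lt_mul_of_pos_right h13 (by linarith)
            nlinarith
          have h13 : (m : ℝ) < b * N := by linarith
          exact_mod_cast h13

/-- the case of large denominators, positive error -/
theorem hit_large {b N : ℕ} (hb : 3 ≤ b) (hN : 1 ≤ N) {x θ : ℝ} {a : ℤ} {q : ℕ} (hq : 0 < q) (hc : IsCoprime a (q : ℤ))
    (hx : x = a / q + θ) (h0 : 0 < θ) (h1 : q * θ < 1 / ((b : ℝ) * N)) (h3 : b * N ≤ q * (b - 1)) (hqQ : q < b * N) (A : ℝ) :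
    ∃ m : ℕ, 1 ≤ m ∧ m < b * N ∧ ∃ n : ℤ, A < m * x - n ∧ m * x - n < A + 1 / N := by
  have hq0 : (0 : ℝ) < q := by exact_mod_cast hq
  have hN0 : (0 : ℝ) < N := by exact_mod_cast hN
  have hb0 : (3 : ℝ) ≤ b := by exact_mod_cast hb
  have hq3 : (b : ℝ) * N ≤ q * (b - 1) := by
    have h4 : ((b * N : ℕ) : ℝ) ≤ ((q * (b - 1) : ℕ) : ℝ) := by exact_mod_cast h3
    rw [Nat.cast_mul q, Nat.cast_sub (by omega)] at h4
    push_cast at h4
    exact h4
  set r : ℤ := ⌊(q : ℝ) * A⌋ + 1 with hr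
  obtain ⟨m, hm1, hmq, n, hn⟩ := grid hq hc r
  have hp : (m : ℝ) * x - n = r / q + m * θ := by
    have h5 : (m : ℝ) * a = r + n * q := by exact_mod_cast hn
    rw [hx]
    field_simp
    linear_combination h5
  have hmq' : (m : ℝ) ≤ q := by exact_mod_cast hmq
  refine ⟨m, hm1, by omega, n, ?_, ?_⟩
  · rw [hp]
    have h5 : A < r / q := by
      rw [lt_div_iff₀ hq0, hr]
      push_cast
      have := Int.lt_floor_add_one ((q : ℝ) * A)
      linarith
    have h6 : (0 : ℝ) ≤ m * θ := by positivity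
    linarith
  · rw [hp]
    have h5 : (r : ℝ) / q ≤ A + 1 / q := by
      rw [div_le_iff₀ hq0, hr]
      push_cast
      have := Int.floor_le ((q : ℝ) * A)
      field_simp
      linarith
    have h6 : (m : ℝ) * θ ≤ q * θ := mul_le_mul_of_nonneg_right hmq' h0.le
    have h7 : 1 / (q : ℝ) ≤ 1 / N - 1 / (b * N) := by
      rw [div_le_iff₀ hq0]
      have h8 : (1 / (N : ℝ) - 1 / (b * N)) * q = q * (b - 1) / (b * N) := by field_simp
      rw [h8, le_div_iff₀ (by positivity)]
      linarith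
    linarith

/-- the scaling -/
theorem scale {b N : ℕ} (hb : 2 ≤ b) (hN : 1 ≤ N) (q : ℕ) : 0 < q → ∀ (x : ℝ), Irrational x → ∀ a : ℤ,
    |(q : ℝ) * x - a| < 1 / N → ∃ (s q' : ℕ) (a' : ℤ), 0 < q' ∧ q' ≤ q ∧ IsCoprime a' (q' : ℤ) ∧
      1 / ((b : ℝ) * N) ≤ |(q' : ℝ) * ((b : ℝ) ^ s * x) - a'| ∧ |(q' : ℝ) * ((b : ℝ) ^ s * x) - a'| < 1 / N := by
  induction q using Nat.strong_induction_on with
  | _ q ih =>
    intro hq x hx a ha
    have hN0 : (0 : ℝ) < N := by exact_mod_cast hN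
    have hb0 : (2 : ℝ) ≤ b := by exact_mod_cast hb
    set η := |(q : ℝ) * x - a| with hη
    have hη0 : 0 < η := by
      rw [hη, abs_pos]
      intro h
      have h1 : Irrational ((q : ℝ) * x) := hx.natCast_mul hq.ne'
      exact h1 ⟨(a : ℚ), by push_cast; linarith⟩
    have hex : ∃ s : ℕ, 1 / ((b : ℝ) * N) ≤ (b : ℝ) ^ s * η := by
      obtain ⟨s, hs⟩ := pow_unbounded_of_one_lt (1 / ((b : ℝ) * N) / η) (by linarith : (1 : ℝ) < b)
      refine ⟨s, ?_⟩
      rw [div_lt_iff₀ hη0] at hs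
      exact hs.le
    classical
    set s := Nat.find hex with hs
    have hs1 := Nat.find_spec hex
    rw [← hs] at hs1
    have hs2 : (b : ℝ) ^ s * η < 1 / N := by
      rcases Nat.eq_zero_or_pos s with h0 | h0
      · rw [h0, pow_zero, one_mul]
        exact ha
      · have h1 := Nat.find_min hex (m := s - 1) (by omega)
        push Not at h1
        have h2 : (b : ℝ) ^ s = b * (b : ℝ) ^ (s - 1) := by
          rw [← pow_succ']
          congr 1
          omega
        rw [h2, mul_assoc]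
        have h3 : (b : ℝ) * ((b : ℝ) ^ (s - 1) * η) < b * (1 / (b * N)) := mul_lt_mul_of_pos_left h1 (by linarith)
        have h4 : (b : ℝ) * (1 / (b * N)) = 1 / N := by field_simp
        linarith
    have habs : ∀ (q' : ℕ) (a' g : ℤ), (g : ℝ) ≠ 0 → (q : ℝ) = q' * g → ((b : ℤ) ^ s * a : ℤ) = a' * g →
        |(q' : ℝ) * ((b : ℝ) ^ s * x) - a'| = (b : ℝ) ^ s * η / |(g : ℝ)| := by
      intro q' a' g hg h1 h2
      have h3 : (b : ℝ) ^ s * (a : ℝ) = a' * g := by exact_mod_cast h2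
      have h4 : (q' : ℝ) * ((b : ℝ) ^ s * x) - a' = (b : ℝ) ^ s * ((q : ℝ) * x - a) / g := by
        rw [h1]
        field_simp
        linear_combination h3
      rw [h4, abs_div, abs_mul, abs_of_nonneg (by positivity : (0 : ℝ) ≤ (b : ℝ) ^ s)]
    by_cases hg : Int.gcd ((b : ℤ) ^ s * a) q = 1
    · refine ⟨s, q, (b : ℤ) ^ s * a, hq, le_rfl, Int.isCoprime_iff_gcd_eq_one.2 hg, ?_, ?_⟩
      · rw [habs q _ 1 (by norm_num) (by simp) (by simp)]
        simpa using hs1
      · rw [habs q _ 1 (by norm_num) (by simp) (by simp)]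
        simpa using hs2
    · set g : ℕ := Int.gcd ((b : ℤ) ^ s * a) q with hgdef
      have hg0 : 0 < g := Int.gcd_pos_of_ne_zero_right _ (by exact_mod_cast hq.ne')
      have hg2 : 2 ≤ g := by omega
      obtain ⟨q', hq'⟩ : ∃ q' : ℕ, q = q' * g := by
        have h1 : (g : ℤ) ∣ (q : ℤ) := Int.gcd_dvd_right _ _
        obtain ⟨c, hc⟩ := Int.natCast_dvd_natCast.1 h1
        exact ⟨c, by rw [hc]; ring⟩
      obtain ⟨a', ha'⟩ : ∃ a' : ℤ, (b : ℤ) ^ s * a = a' * g := by
        obtain ⟨c, hc⟩ := Int.gcd_dvd_left ((b : ℤ) ^ s * a) (q : ℤ)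
        exact ⟨c, by rw [hc, ← hgdef]; ring⟩
      have hq'0 : 0 < q' := by
        rcases Nat.eq_zero_or_pos q' with h | h
        · rw [h, zero_mul] at hq'
          omega
        · exact h
      have hlt : q' < q := by
        rw [hq']
        nlinarith
      have hx' : Irrational ((b : ℝ) ^ s * x) := by
        have h1 : ((b : ℝ) ^ s) = ((b ^ s : ℕ) : ℝ) := by push_cast; rfl
        rw [h1]
        exact hx.natCast_mul (by positivity)
      have hη' : |(q' : ℝ) * ((b : ℝ) ^ s * x) - a'| < 1 / N := by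
        rw [habs q' a' g (by exact_mod_cast hg0.ne') (by exact_mod_cast hq') (by exact_mod_cast ha')]
        have h1 : (1 : ℝ) ≤ |((g : ℤ) : ℝ)| := by
          rw [Int.cast_natCast, abs_of_nonneg (Nat.cast_nonneg _)]
          exact_mod_cast hg0
        have h2 : 0 ≤ (b : ℝ) ^ s * η := by positivity
        exact lt_of_le_of_lt (div_le_self h2 h1) hs2
      obtain ⟨t, q'', a'', h1, h2, h3, h4, h5⟩ := ih q' hlt hq'0 _ hx' a' hη'
      refine ⟨t + s, q'', a'', h1, h2.trans hlt.le, h3, ?_, ?_⟩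
      · rwa [pow_add, mul_assoc]
      · rwa [pow_add, mul_assoc]

/-- **Main lemma.** -/
theorem claim {b N : ℕ} (hb : 3 ≤ b) (hN : 1 ≤ N) {x : ℝ} (hx : Irrational x) : ∃ s : ℕ, ∀ A : ℝ,
    ∃ m : ℕ, 1 ≤ m ∧ m < b * N ∧ ∃ n : ℤ, A < m * ((b : ℝ) ^ s * x) - n ∧ m * ((b : ℝ) ^ s * x) - n < A + 1 / N := by
  have hN0 : (0 : ℝ) < N := by exact_mod_cast hN
  have hb0 : (3 : ℝ) ≤ b := by exact_mod_cast hb
  have hbN : 3 ≤ b * N := by nlinarith
  -- Dirichlet
  obtain ⟨j, q, hq, hqQ, hjq⟩ := Real.exists_int_int_abs_mul_sub_le x (n := b * N - 1) (by omega)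
  have hcast : (((b * N - 1 : ℕ) : ℝ) + 1) = b * N := by
    have : (b * N - 1 + 1 : ℕ) = b * N := by omega
    exact_mod_cast this
  -- reduce the fraction
  obtain ⟨a, q', hq', hq'Q, hcop, haq⟩ : ∃ (a : ℤ) (q' : ℕ), 0 < q' ∧ q' < b * N ∧ IsCoprime a (q' : ℤ) ∧
      |(q' : ℝ) * x - a| ≤ 1 / (b * N) := by
    set g := Int.gcd j q with hg
    have hg0 : 0 < g := Int.gcd_pos_of_ne_zero_right _ hq.ne'
    obtain ⟨a, ha⟩ := Int.gcd_dvd_left j q
    obtain ⟨c, hc⟩ := Int.gcd_dvd_right j q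
    rw [← hg] at ha hc
    have hc0 : 0 < c := by
      by_contra hcon
      push Not at hcon
      have : (g : ℤ) * c ≤ 0 := mul_nonpos_of_nonneg_of_nonpos (by positivity) hcon
      omega
    have hg1 : (1 : ℤ) ≤ g := by exact_mod_cast hg0
    have hcq : c ≤ q := by nlinarith
    have hcN : ((c.toNat : ℕ) : ℤ) = c := Int.toNat_of_nonneg hc0.le
    refine ⟨a, c.toNat, by omega, ?_, ?_, ?_⟩
    · have : c ≤ ((b * N - 1 : ℕ) : ℤ) := hcq.trans hqQ
      omega
    · rw [hcN, Int.isCoprime_iff_gcd_eq_one]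
      have h1 : Int.gcd j q = g * Int.gcd a c := by
        conv_lhs => rw [ha, hc]
        rw [Int.gcd_mul_left]
        simp
      rw [← hg] at h1
      have h2 : g * 1 = g * Int.gcd a c := by rw [mul_one]; exact h1
      exact (Nat.eq_of_mul_eq_mul_left hg0 h2).symm
    · have h1 : (q : ℝ) * x - j = g * (((c.toNat : ℕ) : ℝ) * x - a) := by
        have h2 : ((c.toNat : ℕ) : ℝ) = (c : ℝ) := by exact_mod_cast hcN
        have h3 : (q : ℝ) = g * c := by exact_mod_cast hc
        have h4 : (j : ℝ) = g * a := by exact_mod_cast ha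
        rw [h2, h3, h4]
        ring
      rw [h1, abs_mul, hcast] at hjq
      have h2 : (1 : ℝ) ≤ |(g : ℝ)| := by
        rw [abs_of_nonneg (Nat.cast_nonneg _)]
        exact_mod_cast hg0
      have h3 := abs_nonneg (((c.toNat : ℕ) : ℝ) * x - a)
      nlinarith
  have hq0 : (0 : ℝ) < q' := by exact_mod_cast hq'
  have hlt : |(q' : ℝ) * x - a| < 1 / (b * N) := by
    refine lt_of_le_of_ne haq fun h => ?_
    have h1 : Irrational ((q' : ℝ) * x - a) := (hx.natCast_mul hq'.ne').sub_intCast a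
    rcases abs_choice ((q' : ℝ) * x - a) with h2 | h2
    · rw [h2] at h
      exact h1 ⟨1 / ((b : ℚ) * N), by push_cast; exact h.symm⟩
    · rw [h2] at h
      exact h1 ⟨-(1 / ((b : ℚ) * N)), by push_cast; linarith⟩
  -- both signs
  have sgn : ∀ (s : ℕ) (c : ℕ) (d : ℤ), 0 < c → IsCoprime d (c : ℤ) →
      (∀ (z : ℝ) (e : ℤ), IsCoprime e (c : ℤ) → z = e / c + |(c : ℝ) * ((b : ℝ) ^ s * x) - d| / c → ∀ A : ℝ,
        ∃ m : ℕ, 1 ≤ m ∧ m < b * N ∧ ∃ n : ℤ, A < m * z - n ∧ m * z - n < A + 1 / N) → ∀ A : ℝ,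
      ∃ m : ℕ, 1 ≤ m ∧ m < b * N ∧ ∃ n : ℤ, A < m * ((b : ℝ) ^ s * x) - n ∧ m * ((b : ℝ) ^ s * x) - n < A + 1 / N := by
    intro s c d hc hd H A
    have hc0 : (0 : ℝ) < c := by exact_mod_cast hc
    rcases abs_choice ((c : ℝ) * ((b : ℝ) ^ s * x) - d) with h2 | h2
    · refine H _ d hd ?_ A
      rw [h2]
      field_simp
      ring
    · obtain ⟨m, hm1, hm2, n, hn1, hn2⟩ := H (-((b : ℝ) ^ s * x)) (-d) hd.neg_left (by
        rw [h2]
        push_cast
        field_simp
        ring) (-A - 1 / N)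
      refine ⟨m, hm1, hm2, -n, ?_, ?_⟩
      · push_cast
        linarith
      · push_cast
        linarith
  have hpos : ∀ (s : ℕ) (c : ℕ) (d : ℤ), 0 < c → 0 < |(c : ℝ) * ((b : ℝ) ^ s * x) - d| := by
    intro s c d hc
    rw [abs_pos]
    have hx' : Irrational ((b : ℝ) ^ s * x) := by
      have h1 : ((b : ℝ) ^ s) = ((b ^ s : ℕ) : ℝ) := by push_cast; rfl
      rw [h1]
      exact hx.natCast_mul (by positivity)
    exact ((hx'.natCast_mul hc.ne').sub_intCast d).ne_zero
  rcases Nat.lt_or_ge (q' * (b - 1)) (b * N) with hcs | hcs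
  · obtain ⟨s, c, d, hc, hcq, hcd, h1, h2⟩ := scale (b := b) (N := N) (by omega) hN q' hq' x hx a (hlt.trans_le (by
      apply one_div_le_one_div_of_le hN0
      nlinarith))
    refine ⟨s, sgn s c d hc hcd fun z e he hz A => ?_⟩
    have hc0 : (0 : ℝ) < c := by exact_mod_cast hc
    refine hit_small hb hN hc he hz ?_ ?_ ?_ A
    · rw [mul_div_cancel₀ _ hc0.ne']
      exact h1
    · rw [mul_div_cancel₀ _ hc0.ne']
      exact h2
    · exact lt_of_le_of_lt (Nat.mul_le_mul_right _ hcq) hcs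
  · refine ⟨0, sgn 0 q' a hq' hcop fun z e he hz A => ?_⟩
    have h0 := hpos 0 q' a hq'
    rw [pow_zero, one_mul] at h0
    refine hit_large hb hN hq' he hz ?_ ?_ hcs hq'Q A
    · rw [pow_zero, one_mul]
      positivity
    · rw [mul_div_cancel₀ _ hq0.ne', pow_zero, one_mul]
      exact hlt

end Pool.Agent.T9h51.MH
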