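import Mathlib

/-!
# Digits of the multiples of an irrational number: finite certificates

`x ↦ b x mod 1` on `[0, 1]`. A certificate for the digit `d` in base `b` and the multipliers `m ∈ M`: a partition of `[0, 1]`
(end points in units `1 / D`) into intervals on which `m b ^ s x` has the digit `d` in the first place and into parts of
intervals (vertices); the intervals are mapped by `x ↦ b x mod 1` in such a way that the rank never increases and the next
interval is determined as long as the rank does not decrease.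
-/

set_option autoImplicit false

namespace Pool.Agent.T9h51.MH

/-- a vertex: lower end, upper end, digit, rank, successor -/
abbrev Vt : Type := ℕ × ℕ × ℕ × ℕ × ℕ

/-- the digit is constant on the vertex -/
def vok (b D : ℕ) (v : Vt) : Bool :=
  Nat.ble (v.2.2.1 * D) (b * v.1) && Nat.ble (b * v.2.1) ((v.2.2.1 + 1) * D)

/-- the label of one part of the partition -/
def lab (b d D : ℕ) (M : List ℕ) (V : List Vt) (p q s i : ℕ) : ℕ → Bool
  | 0 => (match V[i]? with
        | some v => Nat.ble v.1 p && Nat.ble q v.2.1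
        | none => false)
  | m + 1 => M.elem (m + 1) && (Nat.beq (b * ((m + 1) * b ^ s) * p / D % b) d &&
          Nat.ble (b * ((m + 1) * b ^ s) * q) ((b * ((m + 1) * b ^ s) * p / D + 1) * D))

/-- the partition -/
def cov (b d D : ℕ) (M : List ℕ) (V : List Vt) : ℕ → List (ℕ × ℕ × ℕ × ℕ) → Bool
  | p, [] => Nat.ble D p
  | p, c :: L => lab b d D M V p c.1 c.2.2.1 c.2.2.2 c.2.1 && cov b d D M V c.1 L

/-- the edges from `v` -/
def row (b D : ℕ) (v : Vt) : ℕ → List Vt → Bool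
  | _, [] => true
  | i, u :: L => (Nat.ble (u.2.1 + v.2.2.1 * D) (b * v.1) || Nat.ble (b * v.2.1) (u.1 + v.2.2.1 * D) ||
      Nat.blt u.2.2.2.1 v.2.2.2.1 || (Nat.beq u.2.2.2.1 v.2.2.2.1 && Nat.beq i v.2.2.2.2)) && row b D v (i + 1) L

/-- the complete check -/
def check (b d D : ℕ) (M : List ℕ) (V : List Vt) (C : List (ℕ × ℕ × ℕ × ℕ)) : Bool :=
  Nat.ble 1 D && (Nat.ble 1 b && (V.all (fun v => vok b D v && row b D v 0 V) && cov b d D M V 0 C))

theorem row_sound {b D : ℕ} {v : Vt} (L : List Vt) (k : ℕ) (h : row b D v k L = true) (i : ℕ) (u : Vt)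
    (hu : L[i]? = some u) (h1 : b * v.1 < u.2.1 + v.2.2.1 * D) (h2 : u.1 + v.2.2.1 * D < b * v.2.1) :
    u.2.2.2.1 < v.2.2.2.1 ∨ (u.2.2.2.1 = v.2.2.2.1 ∧ k + i = v.2.2.2.2) := by
  induction L generalizing k i with
  | nil => simp at hu
  | cons w L ih =>
    rw [row, Bool.and_eq_true] at h
    cases i with
    | zero =>
      simp only [List.getElem?_cons_zero, Option.some.injEq] at hu
      subst hu
      have h3 := h.1
      simp only [Bool.or_eq_true, Bool.and_eq_true, Nat.ble_eq, Nat.blt_eq, Nat.beq_eq] at h3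
      omega
    | succ i =>
      simp only [List.getElem?_cons_succ] at hu
      have := ih (k + 1) h.2 i hu
      omega

/-- the interval of the vertex contains `x` -/
def In (D : ℕ) (v : Vt) (x : ℝ) : Prop := (v.1 : ℝ) < x * D ∧ x * D < v.2.1

theorem cov_sound {b d D : ℕ} (hD : 1 ≤ D) (hb : 1 ≤ b) {M : List ℕ} {V : List Vt} (x : ℝ) (hx : Irrational x) (hx1 : x < 1)
    (hf : ∀ m ∈ M, ∀ s : ℕ, ⌊((b * (m * b ^ s) : ℕ) : ℝ) * x⌋₊ % b ≠ d)
    (C : List (ℕ × ℕ × ℕ × ℕ)) (p : ℕ) (h : cov b d D M V p C = true) (hp : (p : ℝ) < x * D) :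
    ∃ (i : ℕ) (v : Vt), V[i]? = some v ∧ In D v x := by
  have hD0 : (0 : ℝ) < D := by exact_mod_cast hD
  induction C generalizing p with
  | nil =>
    exfalso
    rw [cov, Nat.ble_eq] at h
    have h1 : (D : ℝ) ≤ p := by exact_mod_cast h
    nlinarith
  | cons c C ih =>
    obtain ⟨q, m, s, i⟩ := c
    rw [cov, Bool.and_eq_true] at h
    have hne : (q : ℝ) ≠ x * D := by
      intro h1
      apply hx
      refine ⟨(q : ℚ) / D, ?_⟩
      push_cast
      rw [h1]
      field_simp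
    rcases lt_or_gt_of_ne hne with hq | hq
    · exact ih q h.2 hq
    · have h1 := h.1
      cases m with
      | zero =>
        simp only [lab] at h1
        cases hv : V[i]? with
        | none => rw [hv] at h1; simp at h1
        | some v =>
          rw [hv] at h1
          simp only [Bool.and_eq_true, Nat.ble_eq] at h1
          refine ⟨i, v, hv, ?_, ?_⟩
          · have : (v.1 : ℝ) ≤ p := by exact_mod_cast h1.1
            linarith
          · have : (q : ℝ) ≤ v.2.1 := by exact_mod_cast h1.2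
            linarith
      | succ m =>
        exfalso
        simp only [lab, Bool.and_eq_true, Nat.ble_eq, Nat.beq_eq, List.elem_eq_mem, decide_eq_true_eq] at h1
        obtain ⟨hm, h2, h3⟩ := h1
        refine hf (m + 1) hm s ?_
        set N : ℕ := b * ((m + 1) * b ^ s) with hN
        have hNp : 0 < N := by positivity
        have hN0 : (0 : ℝ) < N := by exact_mod_cast hNp
        have hxp : 0 < x := by
          have h4 : (0 : ℝ) ≤ p := Nat.cast_nonneg _
          by_contra hcon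
          push Not at hcon
          nlinarith
        have h4 : ⌊(N : ℝ) * x⌋₊ = N * p / D := by
          rw [Nat.floor_eq_iff (by positivity)]
          constructor
          · have h5 : ((N * p / D : ℕ) : ℝ) * D ≤ N * p := by exact_mod_cast Nat.div_mul_le_self (N * p) D
            have h6 : (N : ℝ) * p ≤ N * (x * D) := mul_le_mul_of_nonneg_left hp.le hN0.le
            have h7 : ((N * p / D : ℕ) : ℝ) * D ≤ (N * x) * D := by linarith
            exact le_of_mul_le_mul_right h7 hD0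
          · have h5 : (N : ℝ) * q ≤ ((N * p / D : ℕ) + 1 : ℝ) * D := by exact_mod_cast h3
            have h6 : (N : ℝ) * (x * D) < N * q := mul_lt_mul_of_pos_left hq hN0
            have h7 : (N * x) * D < ((N * p / D : ℕ) + 1 : ℝ) * D := by linarith
            exact lt_of_mul_lt_mul_right h7 hD0.le
        rw [h4]
        exact h2

/-- the orbit -/
noncomputable def orb (b : ℕ) (α : ℝ) (k : ℕ) : ℝ := Int.fract ((b : ℝ) ^ k * α)

theorem orb_irr {b : ℕ} (hb : 1 ≤ b) {α : ℝ} (hα : Irrational α) (k : ℕ) : Irrational (orb b α k) := by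
  unfold orb Int.fract
  apply Irrational.sub_intCast
  have h1 : ((b : ℝ) ^ k) = ((b ^ k : ℕ) : ℝ) := by push_cast; rfl
  rw [h1]
  exact hα.natCast_mul (by positivity)

theorem orb_succ (b : ℕ) (α : ℝ) (k : ℕ) : orb b α (k + 1) = Int.fract ((b : ℝ) * orb b α k) := by
  unfold orb
  have h1 : (b : ℝ) ^ (k + 1) * α = b * Int.fract ((b : ℝ) ^ k * α) + ((b * ⌊(b : ℝ) ^ k * α⌋ : ℤ) : ℝ) := by
    rw [Int.fract]
    push_cast
    ring
  rw [h1, Int.fract_add_intCast]

theorem digit_eq (b : ℕ) (α : ℝ) (m s k : ℕ) :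
    ⌊(m : ℝ) * α * (b : ℝ) ^ (k + s + 1)⌋ % (b : ℤ) = ((⌊((b * (m * b ^ s) : ℕ) : ℝ) * orb b α k⌋₊ % b : ℕ) : ℤ) := by
  have h0 : 0 ≤ ((b * (m * b ^ s) : ℕ) : ℝ) * orb b α k := mul_nonneg (Nat.cast_nonneg _) (Int.fract_nonneg _)
  rw [Int.natCast_mod, Int.natCast_floor_eq_floor h0]
  have h1 : (m : ℝ) * α * (b : ℝ) ^ (k + s + 1) =
      ((b * (m * b ^ s) : ℕ) : ℝ) * orb b α k + ((b * (m * b ^ s * ⌊(b : ℝ) ^ k * α⌋) : ℤ) : ℝ) := by
    unfold orb
    rw [Int.fract]
    push_cast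
    ring
  rw [h1, Int.floor_add_intCast, Int.add_mul_emod_self_left]

/-- two orbit points with the same future digits agree -/
theorem orb_eq_of {b : ℕ} (hb : 2 ≤ b) {α : ℝ} {k l : ℕ}
    (h : ∀ i, ⌊(b : ℝ) * orb b α (k + i)⌋ = ⌊(b : ℝ) * orb b α (l + i)⌋) : orb b α k = orb b α l := by
  have h1 : ∀ i : ℕ, orb b α (k + i) - orb b α (l + i) = (b : ℝ) ^ i * (orb b α k - orb b α l) := by
    intro i
    induction i with
    | zero => simp
    | succ i ih =>
      rw [← add_assoc, ← add_assoc, orb_succ, orb_succ, Int.fract, Int.fract, h i]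
      rw [pow_succ]
      linear_combination (b : ℝ) * ih
  have h2 : ∀ i : ℕ, (b : ℝ) ^ i * |orb b α k - orb b α l| ≤ 1 := by
    intro i
    have hbp : (0 : ℝ) ≤ (b : ℝ) ^ i := by positivity
    rw [← abs_of_nonneg hbp, ← abs_mul, ← h1 i, abs_le]
    have a1 : orb b α (k + i) < 1 := Int.fract_lt_one _
    have a2 : 0 ≤ orb b α (k + i) := Int.fract_nonneg _
    have a3 : orb b α (l + i) < 1 := Int.fract_lt_one _
    have a4 : 0 ≤ orb b α (l + i) := Int.fract_nonneg _
    constructor <;> linarith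
  by_contra hne
  have h3 : 0 < |orb b α k - orb b α l| := abs_pos.2 (sub_ne_zero.2 hne)
  obtain ⟨i, hi⟩ := pow_unbounded_of_one_lt (1 / |orb b α k - orb b α l|) (by exact_mod_cast hb : (1 : ℝ) < b)
  have h4 := h2 i
  rw [div_lt_iff₀ h3] at hi
  linarith

/-- **Soundness.** -/
theorem main {b d D : ℕ} (hb : 2 ≤ b) {M : List ℕ} {V : List Vt} {C : List (ℕ × ℕ × ℕ × ℕ)}
    (h : check b d D M V C = true) {α : ℝ} (hα : Irrational α) :
    ∃ m ∈ M, {j : ℕ | ⌊(m : ℝ) * α * (b : ℝ) ^ (j + 1)⌋ % (b : ℤ) = d}.Infinite := by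
  classical
  by_contra hcon
  push Not at hcon
  have hfin : ∀ m ∈ M, {j : ℕ | ⌊(m : ℝ) * α * (b : ℝ) ^ (j + 1)⌋ % (b : ℤ) = d}.Finite := hcon
  simp only [check, Bool.and_eq_true, Nat.ble_eq] at h
  obtain ⟨hD, -, hV, hC⟩ := h
  have hD0 : (0 : ℝ) < D := by exact_mod_cast hD
  -- a common bound
  obtain ⟨k₀, hk₀⟩ : ∃ k₀ : ℕ, ∀ m ∈ M, ∀ j, k₀ ≤ j → ⌊(m : ℝ) * α * (b : ℝ) ^ (j + 1)⌋ % (b : ℤ) ≠ d := by
    have h1 : (⋃ m ∈ {m | m ∈ M}, {j : ℕ | ⌊(m : ℝ) * α * (b : ℝ) ^ (j + 1)⌋ % (b : ℤ) = d}).Finite :=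
      Set.Finite.biUnion (List.finite_toSet M) fun m hm => hfin m hm
    obtain ⟨B, hB⟩ := h1.bddAbove
    refine ⟨B + 1, fun m hm j hj h2 => ?_⟩
    have := hB (Set.mem_biUnion hm h2)
    omega
  have hf : ∀ k, k₀ ≤ k → ∀ m ∈ M, ∀ s : ℕ, ⌊((b * (m * b ^ s) : ℕ) : ℝ) * orb b α k⌋₊ % b ≠ d := by
    intro k hk m hm s h1
    refine hk₀ m hm (k + s) (by omega) ?_
    rw [digit_eq b α m s k, h1]
  -- the vertices
  have hex : ∀ k, k₀ ≤ k → ∃ (i : ℕ) (v : Vt), V[i]? = some v ∧ In D v (orb b α k) := by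
    intro k hk
    refine cov_sound hD (by omega) (orb b α k) (orb_irr (by omega) hα k) (Int.fract_lt_one _) (hf k hk) C 0 hC ?_
    have h1 : 0 < orb b α k := lt_of_le_of_ne (Int.fract_nonneg _) fun h2 => (orb_irr (by omega) hα k).ne_zero h2.symm
    push_cast
    positivity
  choose f g hfg hin using fun k : ℕ => hex (k₀ + k) (by omega)
  have hvok : ∀ k, vok b D (g k) = true ∧ row b D (g k) 0 V = true := by
    intro k
    have h1 := List.all_eq_true.1 hV (g k) (List.mem_of_getElem? (hfg k))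
    rwa [Bool.and_eq_true] at h1
  -- the digits
  have hdig : ∀ k, ⌊(b : ℝ) * orb b α (k₀ + k)⌋ = (((g k).2.2.1 : ℕ) : ℤ) := by
    intro k
    have h1 := (hvok k).1
    simp only [vok, Bool.and_eq_true, Nat.ble_eq] at h1
    have h2 : (((g k).2.2.1 : ℕ) : ℝ) * D ≤ b * (g k).1 := by exact_mod_cast h1.1
    have h3 : (b : ℝ) * (g k).2.1 ≤ (((g k).2.2.1 : ℕ) + 1 : ℝ) * D := by exact_mod_cast h1.2
    have hb0 : (0 : ℝ) < b := by exact_mod_cast (by omega : 0 < b)
    have h4 := mul_lt_mul_of_pos_left (hin k).1 hb0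
    have h5 := mul_lt_mul_of_pos_left (hin k).2 hb0
    rw [Int.floor_eq_iff]
    push_cast
    constructor
    · have h7 : (((g k).2.2.1 : ℕ) : ℝ) * D ≤ (b * orb b α (k₀ + k)) * D := by linarith
      exact le_of_mul_le_mul_right h7 hD0
    · have h7 : (b * orb b α (k₀ + k)) * D < (((g k).2.2.1 : ℕ) + 1 : ℝ) * D := by linarith
      exact lt_of_mul_lt_mul_right h7 hD0.le
  -- the edges
  have hstep : ∀ k, (g (k + 1)).2.2.2.1 < (g k).2.2.2.1 ∨
      ((g (k + 1)).2.2.2.1 = (g k).2.2.2.1 ∧ f (k + 1) = (g k).2.2.2.2) := by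
    intro k
    have h1 : orb b α (k₀ + (k + 1)) = b * orb b α (k₀ + k) - (g k).2.2.1 := by
      rw [← add_assoc, orb_succ, Int.fract, hdig k]
      push_cast
      rfl
    have hb0 : (0 : ℝ) < b := by exact_mod_cast (by omega : 0 < b)
    have h4 := mul_lt_mul_of_pos_left (hin k).1 hb0
    have h5 := mul_lt_mul_of_pos_left (hin k).2 hb0
    have h6 := (hin (k + 1)).1
    have h7 := (hin (k + 1)).2
    rw [h1] at h6 h7
    have h8 := row_sound V 0 (hvok k).2 (f (k + 1)) (g (k + 1)) (hfg (k + 1)) (by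
      have : ((b * (g k).1 : ℕ) : ℝ) < (((g (k + 1)).2.1 + (g k).2.2.1 * D : ℕ) : ℝ) := by
        push_cast
        linarith
      exact_mod_cast this) (by
      have : ((((g (k + 1)).1 + (g k).2.2.1 * D : ℕ)) : ℝ) < ((b * (g k).2.1 : ℕ) : ℝ) := by
        push_cast
        linarith
      exact_mod_cast this)
    rwa [zero_add] at h8
  -- the rank is eventually constant
  have hanti : Antitone fun k => (g k).2.2.2.1 := antitone_nat_of_succ_le fun k => by
    rcases hstep k with h1 | h1 <;> omega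
  obtain ⟨k₁, hk₁⟩ : ∃ k₁, ∀ k, k₁ ≤ k → (g k).2.2.2.1 = (g k₁).2.2.2.1 := by
    obtain ⟨k₁, hk₁⟩ := WellFounded.has_min (wellFounded_lt (α := ℕ)) (Set.range fun k => (g k).2.2.2.1) ⟨_, 0, rfl⟩
    obtain ⟨⟨a, ha⟩, hmin⟩ := hk₁
    refine ⟨a, fun k hk => le_antisymm (hanti hk) ?_⟩
    have := hmin _ ⟨k, rfl⟩
    simp only at ha this
    rw [ha]
    omega
  have hsucc : ∀ k, k₁ ≤ k → f (k + 1) = (g k).2.2.2.2 := by
    intro k hk
    rcases hstep k with h1 | h1
    · have h2 := hk₁ k hk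
      have h3 := hk₁ (k + 1) (by omega)
      omega
    · exact h1.2
  -- pigeonhole
  have hbd : ∀ k, f k < V.length := fun k => by
    have := hfg k
    rw [List.getElem?_eq_some_iff] at this
    exact this.1
  obtain ⟨a, c, hac, hfac⟩ : ∃ a c : ℕ, a ≠ c ∧ f (k₁ + a) = f (k₁ + c) := by
    obtain ⟨a, c, hac, h1⟩ := Finite.exists_ne_map_eq_of_infinite (fun k : ℕ => (⟨f (k₁ + k), hbd _⟩ : Fin V.length))
    exact ⟨a, c, hac, by simpa using congrArg Fin.val h1⟩
  have hg : ∀ k l, f k = f l → g k = g l := by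
    intro k l h1
    have h2 := hfg k
    rw [h1, hfg l] at h2
    exact (Option.some.inj h2).symm
  have hall : ∀ i, f (k₁ + a + i) = f (k₁ + c + i) := by
    intro i
    induction i with
    | zero => exact hfac
    | succ i ih =>
      rw [← add_assoc, ← add_assoc, hsucc _ (by omega), hsucc _ (by omega), hg _ _ ih]
  have heq : orb b α (k₀ + (k₁ + a)) = orb b α (k₀ + (k₁ + c)) := by
    apply orb_eq_of hb
    intro i
    rw [add_assoc, add_assoc, add_assoc, add_assoc, ← add_assoc k₁ a i, ← add_assoc k₁ c i]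
    rw [hdig, hdig, hg _ _ (hall i)]
  -- contradiction
  have h9 : ((b : ℝ) ^ (k₀ + (k₁ + a)) - (b : ℝ) ^ (k₀ + (k₁ + c))) * α =
      ((⌊(b : ℝ) ^ (k₀ + (k₁ + a)) * α⌋ - ⌊(b : ℝ) ^ (k₀ + (k₁ + c)) * α⌋ : ℤ) : ℝ) := by
    unfold orb Int.fract at heq
    push_cast
    linarith
  have h10 : ((b : ℝ) ^ (k₀ + (k₁ + a)) - (b : ℝ) ^ (k₀ + (k₁ + c))) =
      (((b : ℤ) ^ (k₀ + (k₁ + a)) - (b : ℤ) ^ (k₀ + (k₁ + c)) : ℤ) : ℝ) := by push_cast; rfl
  have h11 : ((b : ℤ) ^ (k₀ + (k₁ + a)) - (b : ℤ) ^ (k₀ + (k₁ + c))) ≠ 0 := by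
    rw [sub_ne_zero]
    intro h12
    have h13 : b ^ (k₀ + (k₁ + a)) = b ^ (k₀ + (k₁ + c)) := by exact_mod_cast h12
    have := Nat.pow_right_injective hb h13
    omega
  rw [h10] at h9
  exact (hα.intCast_mul h11) ⟨_, h9.symm⟩

end Pool.Agent.T9h51.MH
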